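import Pool.Agent.Q273.V.Stm

/-! Project V (helper273), job GEN (helper38): every number field of degree `s` has an integral
generator with conjugates of size `O(|d|^(1/s))` (count the integers of bounded size from below by
Minkowski's pigeonhole principle, and those in proper subfields from above by packing). -/

set_option autoImplicit false

open NumberField NumberField.InfinitePlace NumberField.mixedEmbedding MeasureTheory Module
open scoped ENNReal NNReal Pointwise

namespace Q38.V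

variable (K : Type) [Field K] [NumberField K]

/-- the integers with all conjugates of absolute value less than `B` -/
def PP (B : ℝ) : Set (𝓞 K) := {x | ∀ w : InfinitePlace K, w x < B}

theorem PP_finite (B : ℝ) : (PP K B).Finite := by
  have h := NumberField.Embeddings.finite_of_norm_le K ℂ B
  refine Set.Finite.of_finite_image (f := fun x : 𝓞 K => (x : K)) (h.subset ?_) ?_
  · rintro _ ⟨x, hx, rfl⟩
    refine ⟨x.2, fun φ => ?_⟩
    have := hx (InfinitePlace.mk φ)
    rw [InfinitePlace.apply] at this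
    exact this.le
  · intro x _ y _ h
    exact RingOfIntegers.ext h

open Classical in
/-- lower bound for the number of integers -/
theorem low (B : ℝ≥0) :
    ((B : ℝ) / 2) ^ finrank ℚ K ≤ (PP K B).ncard * Real.sqrt |(discr K : ℝ)| := by
  set f : InfinitePlace K → ℝ≥0 := fun _ => B / 2 with hf
  set S : Set (mixedSpace K) := convexBodyLT K f with hS
  set D := ZSpan.fundamentalDomain (latticeBasis K) with hD
  set L := (Submodule.span ℤ (Set.range (latticeBasis K))).toAddSubgroup with hL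
  set n := (PP K B).ncard with hn
  have hfund : IsAddFundamentalDomain L D volume := ZSpan.isAddFundamentalDomain' (latticeBasis K) _
  have : Countable L := inferInstanceAs (Countable (Submodule.span ℤ (Set.range (latticeBasis K))))
  have hSm : MeasurableSet S := by
    have : IsOpen S := (isOpen_set_pi Set.finite_univ fun _ _ => Metric.isOpen_ball).prod
      (isOpen_set_pi Set.finite_univ fun _ _ => Metric.isOpen_ball)
    exact this.measurableSet
  have hin : ∀ y : mixedSpace K, y ∈ S → ∀ w : InfinitePlace K, normAtPlace w y < B / 2 := by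
    rintro y ⟨h1, h2⟩ w
    rcases w.isReal_or_isComplex with hw | hw
    · rw [normAtPlace_apply_of_isReal hw]
      have := h1 ⟨w, hw⟩ (Set.mem_univ _)
      rw [mem_ball_zero_iff] at this
      simpa [hf] using this
    · rw [normAtPlace_apply_of_isComplex hw]
      have := h2 ⟨w, hw⟩ (Set.mem_univ _)
      rw [mem_ball_zero_iff] at this
      simpa [hf] using this
  -- the number of translates through a point
  have hcount : ∀ x : mixedSpace K, {g : L | x ∈ g +ᵥ S}.encard ≤ n := by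
    intro x
    rcases Set.eq_empty_or_nonempty {g : L | x ∈ g +ᵥ S} with h0 | ⟨g0, hg0⟩
    · rw [h0, Set.encard_empty]
      exact zero_le
    · have hmem : ∀ g : L, x ∈ g +ᵥ S → x - (g : mixedSpace K) ∈ S := by
        intro g hg
        rw [Set.mem_vadd_set_iff_neg_vadd_mem] at hg
        have e : -g +ᵥ x = x - (g : mixedSpace K) := by
          change -(g : mixedSpace K) + x = _
          abel
        rwa [e] at hg
      have hex : ∀ g : L, ∃ a : 𝓞 K, x ∈ g +ᵥ S →
          a ∈ PP K B ∧ mixedEmbedding K a = (g : mixedSpace K) - g0 := by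
        intro g
        by_cases hg : x ∈ g +ᵥ S
        · have h1 : (g : mixedSpace K) - g0 ∈ L := sub_mem g.2 g0.2
          obtain ⟨a, ha⟩ := (mem_span_latticeBasis K).1 ((Submodule.mem_toAddSubgroup _).1 h1)
          refine ⟨a, fun _ => ⟨fun w => ?_, ha⟩⟩
          have ha' : mixedEmbedding K a = (g : mixedSpace K) - g0 := ha
          rw [← normAtPlace_apply w (a : K), ha']
          have e : (g : mixedSpace K) - g0 = (x - g0) + -(x - g) := by abel
          rw [e]
          have h2 := hin _ (hmem g hg) w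
          have h3 := hin _ (hmem g0 hg0) w
          have h4 := normAtPlace_add_le w (x - (g0 : mixedSpace K)) (-(x - g))
          rw [normAtPlace_neg] at h4
          linarith
        · exact ⟨0, fun h => absurd h hg⟩
      choose a ha using hex
      have h5 : {g : L | x ∈ g +ᵥ S}.encard ≤ (PP K B).encard := by
        apply Set.encard_le_encard_of_injOn (f := a)
        · intro g hg
          exact (ha g hg).1
        · intro g hg g' hg' h
          have h6 := (ha g hg).2
          have h7 := (ha g' hg').2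
          rw [h, h7] at h6
          have : (g' : mixedSpace K) = g := sub_left_injective h6
          exact Subtype.ext this.symm
      rw [hn, (PP_finite K B).cast_ncard_eq]
      exact h5
  have hsum : ∀ x : mixedSpace K, ∑' g : L, (g +ᵥ S).indicator (1 : mixedSpace K → ℝ≥0∞) x ≤ n := by
    intro x
    have e1 : ∀ g : L, (g +ᵥ S).indicator (1 : mixedSpace K → ℝ≥0∞) x =
        ({g : L | x ∈ g +ᵥ S}).indicator (1 : L → ℝ≥0∞) g := by
      intro g
      by_cases hg : x ∈ g +ᵥ S
      · rw [Set.indicator_of_mem hg, Set.indicator_of_mem (show g ∈ {g : L | x ∈ g +ᵥ S} from hg)]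
        rfl
      · rw [Set.indicator_of_notMem hg,
          Set.indicator_of_notMem (show g ∉ {g : L | x ∈ g +ᵥ S} from hg)]
    simp only [e1]
    rw [← tsum_subtype]
    simp only [Pi.one_apply]
    rw [ENNReal.tsum_set_one]
    exact_mod_cast hcount x
  have h1 : volume S ≤ n * volume D := by
    rw [hfund.measure_eq_tsum S]
    have e2 : ∀ g : L, volume ((g +ᵥ S) ∩ D) =
        ∫⁻ x in D, (g +ᵥ S).indicator (1 : mixedSpace K → ℝ≥0∞) x := by
      intro g
      have : MeasurableSet (g +ᵥ S) := hSm.const_vadd g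
      rw [lintegral_indicator_one this, Measure.restrict_apply this]
    simp only [e2]
    rw [← lintegral_tsum]
    · calc ∫⁻ x in D, ∑' g : L, (g +ᵥ S).indicator (1 : mixedSpace K → ℝ≥0∞) x ≤
            ∫⁻ _ in D, (n : ℝ≥0∞) := lintegral_mono hsum
        _ = n * volume D := by rw [setLIntegral_const]
    · intro g
      exact (measurable_one.indicator (hSm.const_vadd g)).aemeasurable
  rw [hS, convexBodyLT_volume, hD, volume_fundamentalDomain_latticeBasis] at h1
  have h2 : (((B / 2) ^ finrank ℚ K : ℝ≥0) : ℝ≥0∞) ≤ ((n * NNReal.sqrt ‖discr K‖₊ : ℝ≥0) : ℝ≥0∞) := by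
    calc (((B / 2) ^ finrank ℚ K : ℝ≥0) : ℝ≥0∞) ≤
          (convexBodyLTFactor K : ℝ≥0∞) * ((∏ w : InfinitePlace K, f w ^ mult w : ℝ≥0) : ℝ≥0∞) := by
          rw [← ENNReal.coe_mul]
          apply ENNReal.coe_le_coe.2
          have e : ∏ w : InfinitePlace K, f w ^ mult w = (B / 2) ^ finrank ℚ K := by
            rw [hf, Finset.prod_pow_eq_pow_sum, InfinitePlace.sum_mult_eq]
          rw [e]
          exact le_mul_of_one_le_left zero_le (one_le_convexBodyLTFactor K)
      _ ≤ _ := h1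
      _ ≤ (n : ℝ≥0∞) * (1 * (NNReal.sqrt ‖discr K‖₊ : ℝ≥0∞)) := by
          gcongr
          exact pow_le_one₀ zero_le (by simp)
      _ = _ := by
          rw [one_mul]
          push_cast
          rfl
  have h3 : (B / 2) ^ finrank ℚ K ≤ n * NNReal.sqrt ‖discr K‖₊ := ENNReal.coe_le_coe.1 h2
  have h4 : (((B / 2) ^ finrank ℚ K : ℝ≥0) : ℝ) ≤ ((n * NNReal.sqrt ‖discr K‖₊ : ℝ≥0) : ℝ) := h3
  push_cast at h4
  convert h4 using 3
  exact (Int.norm_eq_abs _).symm

/-- a nonzero integer has a conjugate of absolute value at least `1` -/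
theorem eq_of_lt_one {x : 𝓞 K} (h : ∀ w : InfinitePlace K, w x < 1) : x = 0 := by
  by_contra hx
  obtain ⟨w⟩ : Nonempty (InfinitePlace K) := inferInstance
  exact absurd (InfinitePlace.one_le_of_lt_one (w := w) hx fun z _ => h z) (not_le.2 (h w))

open Classical in
theorem card_index : Fintype.card (index K) = finrank ℚ K := by
  rw [← mixedEmbedding.finrank K]
  exact (Module.finrank_eq_card_basis (stdBasis K)).symm

open Classical in
/-- the coordinates -/
theorem coord_le (x : K) (i : index K) {B : ℝ} (h : ∀ w : InfinitePlace K, w x < B) :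
    |(stdBasis K).repr (mixedEmbedding K x) i| < B := by
  rcases i with w | ⟨w, j⟩
  · rw [stdBasis_apply_isReal]
    have h1 := h w.1
    rw [← normAtPlace_apply, normAtPlace_apply_of_isReal w.2] at h1
    exact h1
  · have h1 := h w.1
    rw [← normAtPlace_apply, normAtPlace_apply_of_isComplex w.2] at h1
    fin_cases j
    · exact (Complex.abs_re_le_norm _).trans_lt h1
    · exact (Complex.abs_im_le_norm _).trans_lt h1

open Classical in
theorem lt_one_of_coord (x : K)
    (h : ∀ i, |(stdBasis K).repr (mixedEmbedding K x) i| < 1 / 2) (w : InfinitePlace K) :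
    w x < 1 := by
  rw [← normAtPlace_apply]
  rcases w.isReal_or_isComplex with hw | hw
  · rw [normAtPlace_apply_of_isReal hw]
    have h1 := h (Sum.inl ⟨w, hw⟩)
    rw [stdBasis_apply_isReal] at h1
    rw [Real.norm_eq_abs]
    linarith
  · rw [normAtPlace_apply_of_isComplex hw]
    have h1 := h (Sum.inr ⟨⟨w, hw⟩, 0⟩)
    have h2 := h (Sum.inr ⟨⟨w, hw⟩, 1⟩)
    rw [stdBasis_apply_isComplex_fst] at h1
    rw [stdBasis_apply_isComplex_snd] at h2
    have h3 := Complex.norm_le_abs_re_add_abs_im ((mixedEmbedding K x).2 ⟨w, hw⟩)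
    linarith

open Classical in
/-- upper bound for the number of integers -/
theorem upp {B : ℝ} (hB : 1 ≤ B) : ((PP K B).ncard : ℝ) ≤ (7 * B) ^ finrank ℚ K := by
  set M : ℕ := ⌈2 * B⌉₊ with hM
  have hM1 : 2 * B ≤ M := Nat.le_ceil _
  have hM2 : (M : ℝ) < 2 * B + 1 := Nat.ceil_lt_add_one (by linarith)
  set c : 𝓞 K → index K → ℤ := fun x i => ⌊2 * (stdBasis K).repr (mixedEmbedding K x) i⌋ with hc
  set T : Finset (index K → ℤ) := Fintype.piFinset fun _ => Finset.Icc (-(M : ℤ)) M with hT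
  have hmaps : ∀ x ∈ PP K B, c x ∈ (T : Set (index K → ℤ)) := by
    intro x hx
    rw [hT, Finset.mem_coe, Fintype.mem_piFinset]
    intro i
    have h1 := abs_lt.1 (coord_le K x i hx)
    rw [Finset.mem_Icc]
    constructor
    · rw [Int.le_floor]
      push_cast
      linarith
    · have h2 : (c x i : ℝ) ≤ 2 * (stdBasis K).repr (mixedEmbedding K x) i := Int.floor_le _
      have h3 : (c x i : ℝ) ≤ M := by linarith
      exact_mod_cast h3
  have hinj : Set.InjOn c (PP K B) := by
    intro x _ y _ hxy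
    have h0 : x - y = 0 := by
      apply eq_of_lt_one
      apply lt_one_of_coord
      intro i
      have h1 : c x i = c y i := congrFun hxy i
      have h2 : (stdBasis K).repr (mixedEmbedding K ((x - y : 𝓞 K) : K)) i =
          (stdBasis K).repr (mixedEmbedding K x) i - (stdBasis K).repr (mixedEmbedding K y) i := by
        push_cast
        rw [map_sub, map_sub, Finsupp.sub_apply]
      rw [h2]
      have h3 := Int.floor_le (2 * (stdBasis K).repr (mixedEmbedding K x) i)
      have h4 := Int.lt_floor_add_one (2 * (stdBasis K).repr (mixedEmbedding K x) i)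
      have h5 := Int.floor_le (2 * (stdBasis K).repr (mixedEmbedding K y) i)
      have h6 := Int.lt_floor_add_one (2 * (stdBasis K).repr (mixedEmbedding K y) i)
      have h7 : (⌊2 * (stdBasis K).repr (mixedEmbedding K x) i⌋ : ℝ) =
          ⌊2 * (stdBasis K).repr (mixedEmbedding K y) i⌋ := by exact_mod_cast h1
      rw [abs_lt]
      constructor <;> linarith
    exact sub_eq_zero.1 h0
  have h1 : (PP K B).ncard ≤ T.card := by
    rw [← Set.ncard_coe_finset]
    exact Set.ncard_le_ncard_of_injOn c hmaps hinj T.finite_toSet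
  have h2 : T.card = (2 * M + 1) ^ finrank ℚ K := by
    rw [hT, Fintype.card_piFinset, Finset.prod_const, Int.card_Icc, Finset.card_univ, card_index]
    congr 1
    omega
  rw [h2] at h1
  calc ((PP K B).ncard : ℝ) ≤ (((2 * M + 1) ^ finrank ℚ K : ℕ) : ℝ) := by exact_mod_cast h1
    _ = (2 * M + 1 : ℝ) ^ finrank ℚ K := by push_cast; rfl
    _ ≤ _ := by
        apply pow_le_pow_left₀ (by positivity)
        linarith

/-- the integers in a proper subfield are few -/
theorem sub_count (E : IntermediateField ℚ K) (hE : E ≠ ⊤) {B : ℝ} (hB : 1 ≤ B) :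
    (({x : 𝓞 K | x ∈ PP K B ∧ (x : K) ∈ E}).ncard : ℝ) ^ 2 ≤ (7 * B) ^ finrank ℚ K := by
  classical
  have h1 : ∀ x : 𝓞 K, ∃ y : 𝓞 E, x ∈ PP K B ∧ (x : K) ∈ E →
      y ∈ PP E B ∧ algebraMap E K (y : E) = (x : K) := by
    intro x
    by_cases hx : x ∈ PP K B ∧ (x : K) ∈ E
    · have hint : IsIntegral ℤ (⟨(x : K), hx.2⟩ : E) :=
        (isIntegral_algebraMap_iff (algebraMap E K).injective).1 x.2
      refine ⟨⟨⟨(x : K), hx.2⟩, hint⟩, fun _ => ⟨fun w' => ?_, rfl⟩⟩
      obtain ⟨w, rfl⟩ := InfinitePlace.comap_surjective (k := E) (K := K) w'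
      rw [InfinitePlace.comap_apply]
      exact hx.1 w
    · exact ⟨0, fun h => absurd h hx⟩
  choose g hg using h1
  have h2 : ({x : 𝓞 K | x ∈ PP K B ∧ (x : K) ∈ E}).ncard ≤ (PP E B).ncard := by
    refine Set.ncard_le_ncard_of_injOn g (fun x hx => (hg x hx).1) ?_ (PP_finite E B)
    intro x hx y hy hxy
    have h3 := (hg x hx).2
    have h4 := (hg y hy).2
    rw [hxy, h4] at h3
    exact RingOfIntegers.ext h3.symm
  have h3 : 2 * finrank ℚ E ≤ finrank ℚ K := by
    have h4 := Module.finrank_mul_finrank ℚ E K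
    have h5 : finrank E K ≠ 1 := fun h => hE (IntermediateField.finrank_eq_one_iff_eq_top.1 h)
    have h6 : 0 < finrank E K := Module.finrank_pos
    have h7 : 2 ≤ finrank E K := by omega
    rw [← h4, mul_comm]
    exact Nat.mul_le_mul_left _ h7
  have h4 : (({x : 𝓞 K | x ∈ PP K B ∧ (x : K) ∈ E}).ncard : ℝ) ≤ (7 * B) ^ finrank ℚ E := by
    refine le_trans ?_ (upp E hB)
    exact_mod_cast h2
  calc (({x : 𝓞 K | x ∈ PP K B ∧ (x : K) ∈ E}).ncard : ℝ) ^ 2 ≤ ((7 * B) ^ finrank ℚ E) ^ 2 :=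
        pow_le_pow_left₀ (by positivity) h4 2
    _ = (7 * B) ^ (2 * finrank ℚ E) := by rw [← pow_mul, mul_comm (finrank ℚ E) 2]
    _ ≤ _ := pow_le_pow_right₀ (by linarith) h3

/-- the elements on which two embeddings agree -/
noncomputable def EE (φ ψ : K →ₐ[ℚ] ℂ) : IntermediateField ℚ K :=
  (AlgHom.equalizer φ ψ).toIntermediateField fun x hx => by
    rw [AlgHom.mem_equalizer] at hx ⊢
    rw [map_inv₀, map_inv₀, hx]

theorem mem_EE (φ ψ : K →ₐ[ℚ] ℂ) (x : K) : x ∈ EE K φ ψ ↔ φ x = ψ x := Iff.rfl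

theorem gen : Q273.V.S_GEN := by
  classical
  intro s hs
  refine ⟨28 * ((s : ℝ) + 1) ^ 2, by positivity, fun K _ _ hK => ?_⟩
  set d : ℝ := |(discr K : ℝ)| with hd
  have hd1 : 1 ≤ d := by
    have h1 : (1 : ℤ) ≤ |discr K| := Int.one_le_abs (discr_ne_zero K)
    have h2 : ((1 : ℤ) : ℝ) ≤ ((|discr K| : ℤ) : ℝ) := by exact_mod_cast h1
    push_cast at h2
    exact h2
  have hs0 : (0 : ℝ) < s := by
    have : 0 < s := by omega
    exact_mod_cast this
  set B : ℝ := 28 * ((s : ℝ) + 1) ^ 2 * d ^ (1 / (s : ℝ)) with hB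
  have hd2 : 1 ≤ d ^ (1 / (s : ℝ)) := Real.one_le_rpow hd1 (by positivity)
  have hC1 : 1 ≤ 28 * ((s : ℝ) + 1) ^ 2 := by nlinarith
  have hB1 : 1 ≤ B := by
    rw [hB]
    nlinarith
  have hB0 : 0 < B := by linarith
  by_contra hcon
  push Not at hcon
  -- all integers of size less than `B` lie in proper subfields
  obtain ⟨σ0⟩ : Nonempty (K →+* ℂ) := inferInstance
  let φ : K →ₐ[ℚ] ℂ := σ0.toRatAlgHom
  have h1 : ∀ x ∈ PP K B, ∃ ψ : K →ₐ[ℚ] ℂ, ψ ≠ φ ∧ (x : K) ∈ EE K φ ψ := by
    intro x hx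
    have hx1 : ¬ IntermediateField.adjoin ℚ {(x : K)} = ⊤ := by
      intro h
      obtain ⟨σ, hσ⟩ := hcon (x : K) x.2 h
      have := hx (InfinitePlace.mk σ)
      rw [InfinitePlace.apply] at this
      linarith
    rw [Field.primitive_element_iff_algHom_eq_of_eval ℚ ℂ (fun x => IsAlgClosed.splits _) (x : K) φ]
      at hx1
    push Not at hx1
    obtain ⟨ψ, hψ, hne⟩ := hx1
    exact ⟨ψ, hne.symm, hψ⟩
  set T : Finset (K →ₐ[ℚ] ℂ) := Finset.univ.filter fun ψ => ψ ≠ φ with hT
  have h2 : PP K B ⊆ ⋃ ψ ∈ T, {x : 𝓞 K | x ∈ PP K B ∧ (x : K) ∈ EE K φ ψ} := by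
    intro x hx
    obtain ⟨ψ, h3, h4⟩ := h1 x hx
    rw [Set.mem_iUnion₂]
    exact ⟨ψ, Finset.mem_filter.2 ⟨Finset.mem_univ _, h3⟩, hx, h4⟩
  set Q : ℝ := (7 * B) ^ s with hQ
  have hQ0 : 0 ≤ Q := by positivity
  have h3 : ∀ ψ ∈ T, (({x : 𝓞 K | x ∈ PP K B ∧ (x : K) ∈ EE K φ ψ}).ncard : ℝ) ≤ Real.sqrt Q := by
    intro ψ hψ
    apply Real.le_sqrt_of_sq_le
    rw [hQ, ← hK]
    apply sub_count K _ _ hB1
    intro h
    apply (Finset.mem_filter.1 hψ).2
    ext x
    have : x ∈ EE K φ ψ := by rw [h]; trivial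
    exact this.symm
  have hcard : T.card ≤ s := by
    calc T.card ≤ Fintype.card (K →ₐ[ℚ] ℂ) := Finset.card_le_univ _
      _ = s := by rw [AlgHom.card, hK]
  have h4 : ((PP K B).ncard : ℝ) ≤ s * Real.sqrt Q := by
    have hfin : (⋃ ψ ∈ T, {x : 𝓞 K | x ∈ PP K B ∧ (x : K) ∈ EE K φ ψ}).Finite :=
      Set.Finite.biUnion T.finite_toSet fun ψ _ => (PP_finite K B).subset fun x hx => hx.1
    have h5 : (PP K B).ncard ≤ ∑ ψ ∈ T, ({x : 𝓞 K | x ∈ PP K B ∧ (x : K) ∈ EE K φ ψ}).ncard :=
      (Set.ncard_le_ncard h2 hfin).trans (Finset.set_ncard_biUnion_le _ _)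
    calc ((PP K B).ncard : ℝ) ≤
          ((∑ ψ ∈ T, ({x : 𝓞 K | x ∈ PP K B ∧ (x : K) ∈ EE K φ ψ}).ncard : ℕ) : ℝ) := by
          exact_mod_cast h5
      _ = ∑ ψ ∈ T, (({x : 𝓞 K | x ∈ PP K B ∧ (x : K) ∈ EE K φ ψ}).ncard : ℝ) := by push_cast; rfl
      _ ≤ ∑ ψ ∈ T, Real.sqrt Q := Finset.sum_le_sum h3
      _ = T.card * Real.sqrt Q := by rw [Finset.sum_const, nsmul_eq_mul]
      _ ≤ s * Real.sqrt Q :=
          mul_le_mul_of_nonneg_right (by exact_mod_cast hcard) (Real.sqrt_nonneg _)
  have h5 := low K ⟨B, hB0.le⟩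
  have h6 : (B / 2) ^ s ≤ s * Real.sqrt Q * Real.sqrt d := by
    calc (B / 2) ^ s ≤ (PP K B).ncard * Real.sqrt d := by rw [← hK]; exact h5
      _ ≤ _ := mul_le_mul_of_nonneg_right h4 (Real.sqrt_nonneg _)
  have h7 : ((B / 2) ^ s) ^ 2 ≤ (s : ℝ) ^ 2 * Q * d := by
    calc ((B / 2) ^ s) ^ 2 ≤ (s * Real.sqrt Q * Real.sqrt d) ^ 2 :=
          pow_le_pow_left₀ (by positivity) h6 2
      _ = (s : ℝ) ^ 2 * Q * d := by
          rw [mul_pow, mul_pow, Real.sq_sqrt hQ0, Real.sq_sqrt (by linarith)]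
  have h8 : B ^ s ≤ (s : ℝ) ^ 2 * 28 ^ s * d := by
    have e1 : ((B / 2) ^ s) ^ 2 = B ^ s * (B ^ s / 4 ^ s) := by
      rw [div_pow, div_pow, ← pow_mul 2 s 2, mul_comm s 2, pow_mul 2 2 s]
      norm_num
      ring
    have e2 : (s : ℝ) ^ 2 * Q * d = B ^ s * ((s : ℝ) ^ 2 * 7 ^ s * d) := by
      rw [hQ, mul_pow]
      ring
    rw [e1, e2] at h7
    have h9 := le_of_mul_le_mul_left h7 (by positivity)
    rw [div_le_iff₀ (by positivity)] at h9
    have e3 : (28 : ℝ) ^ s = 7 ^ s * 4 ^ s := by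
      rw [← mul_pow]
      norm_num
    rw [e3]
    linarith
  have h9 : B ^ s = (28 * ((s : ℝ) + 1) ^ 2) ^ s * d := by
    rw [hB, mul_pow, ← Real.rpow_natCast (d ^ (1 / (s : ℝ))) s, ← Real.rpow_mul (by linarith),
      one_div_mul_cancel hs0.ne', Real.rpow_one]
  have h10 : (s : ℝ) ^ 2 < (((s : ℝ) + 1) ^ 2) ^ s := by
    calc (s : ℝ) ^ 2 < ((s : ℝ) + 1) ^ 2 := by nlinarith
      _ = (((s : ℝ) + 1) ^ 2) ^ 1 := (pow_one _).symm
      _ ≤ _ := pow_le_pow_right₀ (by nlinarith) (by omega)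
  rw [h9, mul_pow] at h8
  have h11 : (0 : ℝ) < 28 ^ s * d := by positivity
  nlinarith [mul_lt_mul_of_pos_left h10 h11]

end Q38.V
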